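import Pool.Agent.Helper65.TU.Basic

/-! MP_5c2ead_an, row AMPR: solidity gives the amplification property. -/

open Set Filter Topology

namespace Pool.Agent.Helper65.TU

universe u

theorem st_AMPR : ST_AMPR.{u} := by
  classical
  intro X _ _ R C hC hS
  have hH : ∀ K : Set X, ∃ K' : Set X, WCpt K → WCpt K' ∧ ∀ x ∈ K, ∀ y, R y x → y ∈ K' := by
    intro K
    by_cases h : WCpt K
    · obtain ⟨K', h1, h2⟩ := hS.hull K h
      exact ⟨K', fun _ => ⟨h1, h2⟩⟩
    · exact ⟨∅, fun h' => absurd h' h⟩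
  choose H hH using hH
  let G : Set X → Set X := fun K => (fun x => (2 : ℝ) • x) '' H K
  have hG : ∀ K, WCpt K → WCpt (G K) := fun K hK => (hH K hK).1.smul 2
  have hGj : ∀ j : ℕ, ∀ K, WCpt K → WCpt (G^[j] K) := by
    intro j
    induction j with
    | zero => intro K hK; exact hK
    | succ j ih =>
      intro K hK
      rw [Function.iterate_succ_apply']
      exact hG _ (ih K hK)
  refine ⟨1 / (2 * C), by positivity, fun ε hε => ?_⟩
  obtain ⟨J, hJ⟩ := exists_pow_lt_of_lt_one hε (show (1 / 2 : ℝ) < 1 by norm_num)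
  refine ⟨fun K => ⋃ j ∈ Finset.range (J + 1), (G^[j] K ∩ Bl X), ?_, ?_⟩
  · intro K hK _
    refine ⟨wcpt_biUnion _ fun j _ => (hGj j K hK).inter_Bl, ?_⟩
    intro x hx
    simp only [mem_iUnion] at hx
    obtain ⟨j, _, hx⟩ := hx
    exact hx.2
  · intro L hL hLB
    let Mm : ℕ → Set X := fun i => Nat.rec {0}
      (fun _ M => {z | ∃ x ∈ H L, ∃ y ∈ (fun x => (1 / 2 : ℝ) • x) '' M, z = x + y}) i
    have hM0 : Mm 0 = {0} := rfl
    have hMs : ∀ i, Mm (i + 1) =
        {z | ∃ x ∈ H L, ∃ y ∈ (fun x => (1 / 2 : ℝ) • x) '' Mm i, z = x + y} := fun _ => rfl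
    have hMw : ∀ i, WCpt (Mm i) := by
      intro i
      induction i with
      | zero => rw [hM0]; exact wcpt_singleton 0
      | succ i ih => rw [hMs]; exact (hH L hL).1.add (ih.smul (1 / 2))
    refine ⟨Mm J, hMw J, fun K hK hKB hN => ?_⟩
    have key : ∀ i j : ℕ, i + j = J → ∀ x ∈ G^[j] K, x ∈ Bl X →
        ∃ y ∈ Mm i, ‖x - y‖ ≤ (1 / 2 : ℝ) ^ i := by
      intro i
      induction i with
      | zero =>
        intro j _ x _ hx
        refine ⟨0, rfl, ?_⟩
        rw [sub_zero, pow_zero]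
        exact hx
      | succ i ih =>
        intro j hj x hx hxB
        obtain ⟨l, hl, hxl⟩ := hN x (by
          simp only [mem_iUnion]
          exact ⟨j, Finset.mem_range.2 (by omega), hx, hxB⟩)
        obtain ⟨x', x'', hx1, hx2, hx3, hx4⟩ := hS.dec x l
        have h1 : x' ∈ H L := (hH L hL).2 l hl x' hx2
        have h2 : x'' ∈ H (G^[j] K) := (hH _ (hGj j K hK)).2 x hx x'' hx3
        have h3 : (2 : ℝ) • x'' ∈ G^[j + 1] K := by
          rw [Function.iterate_succ_apply']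
          exact ⟨x'', h2, rfl⟩
        have h4 : ‖x''‖ ≤ 1 / 2 := by
          have h5 := hS.bd _ _ hx4
          calc ‖x''‖ ≤ C * ‖x - l‖ := h5
            _ ≤ C * (1 / (2 * C)) := mul_le_mul_of_nonneg_left hxl hC.le
            _ = 1 / 2 := by field_simp
        have h6 : (2 : ℝ) • x'' ∈ Bl X := by
          change ‖(2 : ℝ) • x''‖ ≤ 1
          rw [norm_smul, Real.norm_ofNat]
          linarith
        obtain ⟨y, hy, hxy⟩ := ih (j + 1) (by omega) _ h3 h6
        refine ⟨x' + (1 / 2 : ℝ) • y, ?_, ?_⟩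
        · rw [hMs]
          exact ⟨x', h1, (1 / 2 : ℝ) • y, ⟨y, hy, rfl⟩, rfl⟩
        · have e : x - (x' + (1 / 2 : ℝ) • y) = (1 / 2 : ℝ) • ((2 : ℝ) • x'' - y) := by
            rw [hx1, smul_sub, smul_smul]
            norm_num
          rw [e, norm_smul, pow_succ, mul_comm]
          have e2 : ‖(1 / 2 : ℝ)‖ = 1 / 2 := by norm_num
          rw [e2]
          exact mul_le_mul_of_nonneg_right hxy (by norm_num)
    intro x hx
    obtain ⟨y, hy, hxy⟩ := key J 0 (by omega) x hx (hKB hx)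
    exact ⟨y, hy, hxy.trans hJ.le⟩

end Pool.Agent.Helper65.TU
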