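import Pool.Agent.Helper65.TU.Stmts3

/-! Row LPF: functionals on an l_p-sum have small tails. -/

set_option autoImplicit false

open Set Filter Topology
open scoped ENNReal

namespace Pool.Agent.Helper65.TU

universe u v

theorem LPF.norm_add_rpow {Γ : Type v} {X : Γ → Type u} [∀ g, NormedAddCommGroup (X g)]
    {p : ℝ≥0∞} (hp : 0 < p.toReal) (y z : lp X p)
    (h : ∀ g, y g = 0 ∨ z g = 0) :
    ‖y + z‖ ^ p.toReal = ‖y‖ ^ p.toReal + ‖z‖ ^ p.toReal := by
  rw [lp.norm_rpow_eq_tsum hp, lp.norm_rpow_eq_tsum hp, lp.norm_rpow_eq_tsum hp,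
    ← Summable.tsum_add ((lp.memℓp y).summable hp) ((lp.memℓp z).summable hp)]
  refine tsum_congr fun g => ?_
  rw [lp.coeFn_add, Pi.add_apply]
  rcases h g with h | h
  · rw [h, zero_add, norm_zero, Real.zero_rpow hp.ne', zero_add]
  · rw [h, add_zero, norm_zero, Real.zero_rpow hp.ne', add_zero]

theorem st_LPF : ST_LPF.{u, v} := by
  classical
  intro Γ X _ _ p _ hp1 hpt f ε hε
  have hp : 1 < p.toReal := by
    rw [← ENNReal.toReal_one]
    exact (ENNReal.toReal_lt_toReal ENNReal.one_ne_top hpt).2 hp1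
  have hp0 : 0 < p.toReal := by linarith
  set S : Set ℝ := {c | 0 ≤ c ∧ ∃ F : Finset Γ, ∀ y : lp X p, (∀ g ∈ F, y g = 0) →
    |f y| ≤ c * ‖y‖} with hS
  have hSn : S.Nonempty := ⟨‖f‖, norm_nonneg _, ∅, fun y _ => f.le_opNorm y⟩
  have hSb : BddBelow S := ⟨0, fun c hc => hc.1⟩
  set a := sInf S with ha
  have ha0 : 0 ≤ a := le_csInf hSn fun c hc => hc.1
  rcases ha0.eq_or_lt with h0 | h0
  · obtain ⟨c, hc, hcε⟩ := (csInf_lt_iff hSb hSn).1 (by rw [← ha, ← h0]; exact hε)
    obtain ⟨F, hF⟩ := hc.2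
    exact ⟨F, fun y hy => (hF y hy).trans
      (mul_le_mul_of_nonneg_right hcε.le (norm_nonneg _))⟩
  · exfalso
    set q : ℝ := 2 ^ (1 / p.toReal) with hq
    have hq0 : 0 < q := by positivity
    have hq2 : q < 2 := by
      calc q < 2 ^ (1 : ℝ) := Real.rpow_lt_rpow_of_exponent_lt (by norm_num)
            (by rw [div_lt_one hp0]; exact hp)
        _ = 2 := Real.rpow_one 2
    set η : ℝ := (2 - q) / (2 + q) with hη
    have hη0 : 0 < η := by
      rw [hη]
      exact div_pos (by linarith) (by linarith)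
    have hη1 : η < 1 := by
      rw [hη, div_lt_one (by linarith)]
      linarith
    have hηq : 2 * (1 - η) = (1 + η) * q := by
      rw [hη]
      field_simp
      ring
    obtain ⟨c, hc, hcε⟩ := (csInf_lt_iff hSb hSn).1
      (show sInf S < (1 + η) * a by rw [← ha]; nlinarith)
    obtain ⟨hc0, F, hF⟩ := hc
    have hlow : ∀ F' : Finset Γ, ∃ y : lp X p, (∀ g ∈ F', y g = 0) ∧
        (1 - η) * a * ‖y‖ < |f y| := by
      intro F'
      by_contra hcon
      push Not at hcon
      have : (1 - η) * a ∈ S := ⟨mul_nonneg (by linarith) h0.le, F', hcon⟩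
      have h1 := csInf_le hSb this
      rw [← ha] at h1
      nlinarith
    -- unit vectors with positive values
    have hnorm : ∀ y : lp X p, (1 - η) * a * ‖y‖ < |f y| → ∃ t : ℝ, ‖t • y‖ = 1 ∧
        (1 - η) * a < f (t • y) := by
      intro y hy
      have hy0 : 0 < ‖y‖ := by
        rcases (norm_nonneg y).eq_or_lt with h | h
        · exfalso
          have : y = 0 := norm_eq_zero.1 h.symm
          rw [this, norm_zero, mul_zero, map_zero, abs_zero] at hy
          exact lt_irrefl _ hy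
        · exact h
      have h2 : (1 - η) * a < ‖y‖⁻¹ * |f y| := by
        rw [← div_eq_inv_mul, lt_div_iff₀ hy0]
        exact hy
      rcases le_or_gt 0 (f y) with h | h
      · refine ⟨‖y‖⁻¹, ?_, ?_⟩
        · rw [norm_smul, norm_inv, norm_norm, inv_mul_cancel₀ hy0.ne']
        · rw [map_smul, smul_eq_mul]
          rwa [abs_of_nonneg h] at h2
      · refine ⟨-‖y‖⁻¹, ?_, ?_⟩
        · rw [norm_smul, norm_neg, norm_inv, norm_norm, inv_mul_cancel₀ hy0.ne']
        · rw [map_smul, smul_eq_mul]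
          rw [abs_of_neg h] at h2
          linarith
    obtain ⟨y, hyF, hy⟩ := hlow F
    -- truncation
    have hsum : Tendsto (fun G : Finset Γ => ∑ g ∈ G, lp.single p g (y g)) atTop (𝓝 y) :=
      lp.hasSum_single hpt y
    have hopen : IsOpen {w : lp X p | (1 - η) * a * ‖w‖ < |f w|} :=
      isOpen_lt (continuous_const.mul continuous_norm) (continuous_abs.comp f.continuous)
    obtain ⟨G, hG⟩ := ((hsum.eventually (hopen.mem_nhds hy)).exists)
    set y' : lp X p := ∑ g ∈ G, lp.single p g (y g) with hy'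
    have hval : ∀ g, y' g = if g ∈ G then y g else 0 := by
      intro g
      rw [hy', lp.coeFn_sum, Finset.sum_apply]
      simp only [lp.coeFn_single]
      exact Finset.sum_pi_single g (fun g => y g) G
    have hy'F : ∀ g ∈ F, y' g = 0 := by
      intro g hg
      rw [hval, hyF g hg, ite_self]
    obtain ⟨z, hzF, hz⟩ := hlow (F ∪ G)
    obtain ⟨t, ht1, ht2⟩ := hnorm y' hG
    obtain ⟨r, hr1, hr2⟩ := hnorm z hz
    have hdis : ∀ g, (t • y') g = 0 ∨ (r • z) g = 0 := by
      intro g
      rw [lp.coeFn_smul, lp.coeFn_smul, Pi.smul_apply, Pi.smul_apply]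
      by_cases hg : g ∈ G
      · right
        rw [hzF g (Finset.mem_union_right _ hg), smul_zero]
      · left
        rw [hval, if_neg hg, smul_zero]
    have hn := LPF.norm_add_rpow hp0 (t • y') (r • z) hdis
    rw [ht1, hr1, Real.one_rpow, one_add_one_eq_two] at hn
    have hn2 : ‖t • y' + r • z‖ = q := by
      rw [hq, ← hn, ← Real.rpow_mul (norm_nonneg _), mul_one_div_cancel hp0.ne', Real.rpow_one]
    have hb := hF (t • y' + r • z) (by
      intro g hg
      rw [lp.coeFn_add, Pi.add_apply, lp.coeFn_smul, lp.coeFn_smul, Pi.smul_apply, Pi.smul_apply,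
        hy'F g hg, hzF g (Finset.mem_union_left _ hg), smul_zero, smul_zero, add_zero])
    rw [hn2, map_add] at hb
    have hb2 := (le_abs_self _).trans hb
    nlinarith

end Pool.Agent.Helper65.TU
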